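import Pool.Agent.Q189.RP.Riesz

/-!
# The limit measure of the nonlinear Riesz product
-/

set_option autoImplicit false

open MeasureTheory Set Filter Topology Complex

namespace Pool.Agent.Q189.RP

/-- The compact interval `[1,2]`. -/
abbrev Kc : Type := Set.Icc (1 : ℝ) 2

/-- Lebesgue measure on `[1,2]`. -/
noncomputable def vol : Measure Kc := Measure.comap Subtype.val volume

theorem int_Kc {G : Type*} [NormedAddCommGroup G] [NormedSpace ℝ G] (f : ℝ → G) :
    ∫ x : Kc, f x ∂vol = ∫ x in (1 : ℝ)..2, f x := by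
  rw [intervalIntegral.integral_of_le (by norm_num), ← integral_Icc_eq_integral_Ioc]
  exact integral_subtype_comap measurableSet_Icc f

instance : IsFiniteMeasure vol := by
  refine ⟨?_⟩
  unfold vol
  rw [Measure.comap_apply Subtype.val Subtype.val_injective
    (fun s hs => (MeasurableEmbedding.subtype_coe measurableSet_Icc).measurableSet_image.2 hs) _
    MeasurableSet.univ, image_univ, Subtype.range_coe]
  simp

/-- The normalised densities. -/
noncomputable def dens (K : ℕ) (x : Kc) : ℝ := P K x / mass K

theorem mass_pos (K : ℕ) : 0 < mass K := by linarith [(mass_bounds K).1]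

theorem dens_nonneg (K : ℕ) (x : Kc) : 0 ≤ dens K x := div_nonneg (P_nonneg _ _) (mass_pos K).le

theorem dens_continuous (K : ℕ) : Continuous (dens K) :=
  ((P_continuous K).comp continuous_subtype_val).div_const _

/-- The approximating measures. -/
noncomputable def muM (K : ℕ) : Measure Kc :=
  vol.withDensity (fun x => ENNReal.ofReal (dens K x))

theorem dens_integrable (K : ℕ) : Integrable (dens K) vol :=
  (BoundedContinuousFunction.mkOfCompact ⟨_, dens_continuous K⟩).integrable _

instance (K : ℕ) : IsProbabilityMeasure (muM K) := by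
  refine ⟨?_⟩
  unfold muM
  rw [withDensity_apply _ MeasurableSet.univ, Measure.restrict_univ,
    ← ofReal_integral_eq_lintegral_ofReal (dens_integrable K)
      (Eventually.of_forall fun x => dens_nonneg K x)]
  have h : ∫ x : Kc, dens K x ∂vol = 1 := by
    unfold dens
    rw [int_Kc (fun x => P K x / mass K), intervalIntegral.integral_div]
    exact div_self (mass_pos K).ne'
  rw [h, ENNReal.ofReal_one]

theorem int_muM (K : ℕ) (t m : ℝ) : ∫ x : Kc, E t m x ∂(muM K) = J K t m / (mass K : ℂ) := by
  unfold muM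
  rw [integral_withDensity_eq_integral_toReal_smul
    ((dens_continuous K).measurable.ennreal_ofReal)
    (Eventually.of_forall fun x => ENNReal.ofReal_lt_top)]
  have h1 : ∀ x : Kc, (ENNReal.ofReal (dens K x)).toReal • E t m x
      = (fun y : ℝ => E t m y * (P K y : ℂ) / (mass K : ℂ)) x := by
    intro x
    rw [ENNReal.toReal_ofReal (dens_nonneg K x), Complex.real_smul]
    unfold dens
    push_cast
    ring
  simp only [h1]
  rw [int_Kc (fun y : ℝ => E t m y * (P K y : ℂ) / (mass K : ℂ)), intervalIntegral.integral_div]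
  rfl

/-- **The Rajchman measure whose image on the circle is not Rajchman.** -/
theorem exists_measure : ∃ μ : ProbabilityMeasure Kc,
    (∀ t : ℝ, t ≠ 0 → ‖∫ x : Kc, E t 0 x ∂(μ : Measure Kc)‖ ≤ 2 * D t) ∧
    ∀ k : ℕ, 1 / 5 ≤ (∫ x : Kc, E 0 (nk k) x ∂(μ : Measure Kc)).re := by
  let u : ℕ → ProbabilityMeasure Kc := fun K => ⟨muM K, inferInstance⟩
  obtain ⟨μ, -, hμ⟩ := isCompact_univ.ultrafilter_le_nhds ((hyperfilter ℕ).map u) (by simp)
  have hμ' : Tendsto u (hyperfilter ℕ : Filter ℕ) (𝓝 μ) := hμ
  rw [ProbabilityMeasure.tendsto_iff_forall_integral_rclike_tendsto ℂ] at hμ'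
  have hlim : ∀ t m : ℝ, Tendsto (fun K => J K t m / (mass K : ℂ)) (hyperfilter ℕ : Filter ℕ)
      (𝓝 (∫ x : Kc, E t m x ∂(μ : Measure Kc))) := by
    intro t m
    have h := hμ' (BoundedContinuousFunction.mkOfCompact
      ⟨fun x : Kc => E t m x, (E_continuous t m).comp continuous_subtype_val⟩)
    have h2 : ∀ K, ∫ x : Kc, (BoundedContinuousFunction.mkOfCompact
      (⟨fun x : Kc => E t m x, (E_continuous t m).comp continuous_subtype_val⟩ : C(Kc, ℂ))) x
        ∂((u K : ProbabilityMeasure Kc) : Measure Kc) = J K t m / (mass K : ℂ) := fun K => int_muM K t m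
    simp only [h2] at h
    exact h
  have hat : (hyperfilter ℕ : Filter ℕ) ≤ atTop := Nat.hyperfilter_le_atTop
  refine ⟨μ, fun t ht => ?_, fun k => ?_⟩
  · refine le_of_tendsto (hlim t 0).norm (Eventually.of_forall fun K => ?_)
    rw [norm_div, Complex.norm_real, Real.norm_eq_abs, abs_of_pos (mass_pos K),
      div_le_iff₀ (mass_pos K)]
    have h1 := J_upper K t ht
    have h2 := (mass_bounds K).1
    have h3 : 0 ≤ D t := (norm_nonneg _).trans h1
    nlinarith
  · have h1 := (Complex.continuous_re.tendsto _).comp (hlim 0 (nk k))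
    refine ge_of_tendsto h1 ?_
    have : ∀ᶠ K in (hyperfilter ℕ : Filter ℕ), k < K := hat (eventually_gt_atTop k)
    filter_upwards [this] with K hK
    simp only [Function.comp]
    rw [Complex.div_ofReal_re, le_div_iff₀ (mass_pos K)]
    have h2 := J_lower k K hK
    have h3 := (mass_bounds K).2
    linarith

end Pool.Agent.Q189.RP
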