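import Pool.Agent.Q189.RP.Meas

/-!
# Multiplication operators, the unitary group and its cogenerator
-/

set_option autoImplicit false

open MeasureTheory Set Filter Topology Complex
open scoped ENNReal InnerProductSpace

namespace Pool.Agent.Q189.RP

variable (μ : Measure Kc) [IsProbabilityMeasure μ]

/-- The Hilbert space. -/
noncomputable abbrev H2 := Lp ℂ 2 μ

/-- Multiplication operators by continuous functions. -/
noncomputable def M : C(Kc, ℂ) →L[ℂ] (H2 μ →L[ℂ] H2 μ) :=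
  ((ContinuousLinearMap.mul ℂ ℂ).holderL μ ∞ 2 2) ∘L (ContinuousMap.toLp ∞ μ ℂ)

variable {μ}

theorem M_coe (f : C(Kc, ℂ)) (g : H2 μ) : M μ f g =ᵐ[μ] fun x => f x * g x := by
  have h1 : M μ f g =ᵐ[μ] fun x => (ContinuousMap.toLp ∞ μ ℂ f : Lp ℂ ∞ μ) x * g x :=
    ContinuousLinearMap.coeFn_holder (ContinuousLinearMap.mul ℂ ℂ) _ _
  have h2 := ContinuousMap.coeFn_toLp (p := ∞) (𝕜 := ℂ) μ f
  filter_upwards [h1, h2] with x hx1 hx2
  rw [hx1, hx2]

theorem M_one : M μ 1 = 1 := by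
  ext1 g
  rw [Lp.ext_iff]
  filter_upwards [M_coe (μ := μ) 1 g] with x hx
  rw [hx]
  simp

theorem M_mul (f g : C(Kc, ℂ)) : M μ (f * g) = M μ f * M μ g := by
  ext1 z
  rw [Lp.ext_iff, mul_apply_eq_comp]
  filter_upwards [M_coe (μ := μ) (f * g) z, M_coe (μ := μ) g z, M_coe (μ := μ) f (M μ g z)]
    with x hx hx2 hx3
  rw [hx, hx3, hx2, ContinuousMap.mul_apply, mul_assoc]

theorem M_pow (f : C(Kc, ℂ)) (n : ℕ) : M μ (f ^ n) = M μ f ^ n := by
  induction n with
  | zero => rw [pow_zero, pow_zero, M_one]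
  | succ n ih => rw [pow_succ, pow_succ, M_mul, ih]

theorem M_norm (f : C(Kc, ℂ)) : ‖M μ f‖ ≤ ‖f‖ := by
  refine ContinuousLinearMap.opNorm_le_bound _ (norm_nonneg _) fun z => ?_
  refine Lp.norm_le_mul_norm_of_ae_le_mul ?_
  filter_upwards [M_coe (μ := μ) f z] with x hx
  rw [hx, norm_mul]
  exact mul_le_mul_of_nonneg_right (f.norm_coe_le_norm x) (norm_nonneg _)

/-- The element of `L²` of a continuous function. -/
noncomputable def tl (f : C(Kc, ℂ)) : H2 μ := ContinuousMap.toLp 2 μ ℂ f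

theorem M_tl (f g : C(Kc, ℂ)) : M μ f (tl g) = tl (f * g) := by
  rw [Lp.ext_iff]
  filter_upwards [M_coe (μ := μ) f (tl g), ContinuousMap.coeFn_toLp (p := 2) (𝕜 := ℂ) μ g,
    ContinuousMap.coeFn_toLp (p := 2) (𝕜 := ℂ) μ (f * g)] with x h1 h2 h3
  rw [h1]
  unfold tl
  rw [h2, h3, ContinuousMap.mul_apply]

theorem inner_tl (f g : C(Kc, ℂ)) :
    inner ℂ (tl f : H2 μ) (tl g) = ∫ x, starRingEnd ℂ (f x) * g x ∂μ := by
  rw [L2.inner_def]
  refine integral_congr_ae ?_
  filter_upwards [ContinuousMap.coeFn_toLp (p := 2) (𝕜 := ℂ) μ f,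
    ContinuousMap.coeFn_toLp (p := 2) (𝕜 := ℂ) μ g] with x h1 h2
  unfold tl
  rw [h1, h2, RCLike.inner_apply, mul_comm]

theorem norm_tl_le (f : C(Kc, ℂ)) : ‖(tl f : H2 μ)‖ ≤ ‖f‖ := by
  have h1 : (tl f : H2 μ) = M μ f (tl 1) := by rw [M_tl, mul_one]
  have h2 : ‖(tl 1 : H2 μ)‖ ^ 2 = 1 := by
    have h3 := inner_self_eq_norm_sq_to_K (𝕜 := ℂ) (tl 1 : H2 μ)
    rw [inner_tl] at h3
    simp at h3
    have h4 : ((‖(tl 1 : H2 μ)‖ ^ 2 : ℝ) : ℂ) = 1 := by push_cast; exact h3.symm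
    exact_mod_cast h4
  have h3 : ‖(tl 1 : H2 μ)‖ = 1 := by
    have h5 := norm_nonneg (tl 1 : H2 μ)
    nlinarith
  rw [h1]
  refine ((M μ f).le_opNorm _).trans ?_
  rw [h3, mul_one]
  exact M_norm f

/-- The exponentials as continuous functions on `[1,2]`. -/
noncomputable def e (t : ℝ) : C(Kc, ℂ) := ⟨fun x => E t 0 x, (E_continuous t 0).comp continuous_subtype_val⟩

theorem e_apply (t : ℝ) (x : Kc) : e t x = cexp (I * ((t * x : ℝ) : ℂ)) := by
  show E t 0 x = _
  unfold E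
  simp

theorem e_zero : e 0 = 1 := by
  ext x
  rw [e_apply]
  simp

theorem e_add (s t : ℝ) : e (s + t) = e s * e t := by
  ext x
  rw [ContinuousMap.mul_apply, e_apply, e_apply, e_apply, ← Complex.exp_add]
  congr 1
  push_cast
  ring

theorem e_norm (t : ℝ) : ‖e t‖ ≤ 1 := by
  rw [ContinuousMap.norm_le _ zero_le_one]
  intro x
  rw [e_apply, mul_comm, Complex.norm_exp_ofReal_mul_I]

theorem e_star (t : ℝ) (x : Kc) : starRingEnd ℂ (e t x) = e (-t) x := by
  rw [e_apply, e_apply, ← Complex.exp_conj, map_mul, Complex.conj_I, Complex.conj_ofReal]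
  congr 1
  push_cast
  ring

theorem e_continuous : Continuous e := by
  refine ContinuousMap.continuous_of_continuous_uncurry _ ?_
  have : Function.uncurry (fun (t : ℝ) (x : Kc) => e t x)
      = fun p : ℝ × Kc => cexp (I * ((p.1 * p.2 : ℝ) : ℂ)) := by
    funext p
    exact e_apply p.1 p.2
  rw [this]
  fun_prop

/-- The unitary group. -/
noncomputable def T (μ : Measure Kc) [IsProbabilityMeasure μ] (t : ℝ) : H2 μ →L[ℂ] H2 μ := M μ (e t)

/-- The resolvent function. -/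
noncomputable def r : C(Kc, ℂ) := ⟨fun x => 1 / (1 - I * (x : ℝ)), by
  refine Continuous.div continuous_const (by fun_prop) fun x h => ?_
  have := congrArg Complex.re h
  simp at this⟩

theorem r_apply (x : Kc) : r x = 1 / (1 - I * ((x : ℝ) : ℂ)) := rfl

theorem int_e : IntegrableOn (fun t : ℝ => ((Real.exp (-t) : ℝ) : ℂ) • e t) (Ioi 0) := by
  have hc : Continuous (fun t : ℝ => ((Real.exp (-t) : ℝ) : ℂ) • e t) := by
    have := e_continuous
    fun_prop
  refine Integrable.mono' (g := fun t => Real.exp (-t)) ?_ hc.aestronglyMeasurable ?_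
  · have := exp_neg_integrableOn_Ioi 0 (b := 1) one_pos
    simp only [neg_mul, one_mul] at this
    exact this
  · refine Eventually.of_forall fun t => ?_
    rw [norm_smul, Complex.norm_real, Real.norm_eq_abs, abs_of_pos (Real.exp_pos _)]
    exact mul_le_of_le_one_right (Real.exp_pos _).le (e_norm t)

theorem integral_e : ∫ t in Ioi (0 : ℝ), ((Real.exp (-t) : ℝ) : ℂ) • e t = r := by
  ext x
  have h1 : (∫ t in Ioi (0 : ℝ), ((Real.exp (-t) : ℝ) : ℂ) • e t) x
      = ∫ t in Ioi (0 : ℝ), (((Real.exp (-t) : ℝ) : ℂ) • e t) x :=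
    ((ContinuousMap.evalCLM ℂ x).integral_comp_comm int_e).symm
  rw [h1, r_apply]
  have h2 : ∀ t : ℝ, (((Real.exp (-t) : ℝ) : ℂ) • e t) x = cexp ((-1 + I * ((x : ℝ) : ℂ)) * t) := by
    intro t
    rw [ContinuousMap.smul_apply, e_apply, smul_eq_mul, Complex.ofReal_exp, ← Complex.exp_add]
    congr 1
    push_cast
    ring
  simp only [h2]
  rw [integral_exp_mul_complex_Ioi (by simp)]
  have h3 : (1 - I * ((x : ℝ) : ℂ)) ≠ 0 := by
    intro h
    have := congrArg Complex.re h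
    simp at this
  have h4 : (-1 + I * ((x : ℝ) : ℂ)) ≠ 0 := by
    intro h
    have := congrArg Complex.re h
    simp at this
  simp only [Complex.ofReal_zero, mul_zero, Complex.exp_zero]
  rw [div_eq_div_iff h4 h3]
  ring

/-- The symbol of the cogenerator. -/
noncomputable def v : C(Kc, ℂ) := 1 - (2 : ℂ) • r

theorem cogen (z : H2 μ) :
    z - (2 : ℂ) • ∫ t in Ioi (0 : ℝ), ((Real.exp (-t) : ℝ) : ℂ) • T μ t z = M μ v z := by
  have h1 : ∫ t in Ioi (0 : ℝ), ((Real.exp (-t) : ℝ) : ℂ) • T μ t z = M μ r z := by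
    have h2 := ((ContinuousLinearMap.apply ℂ (H2 μ) z).comp (M μ)).integral_comp_comm int_e
    rw [integral_e] at h2
    have h3 : ∀ t : ℝ, ((ContinuousLinearMap.apply ℂ (H2 μ) z).comp (M μ))
        (((Real.exp (-t) : ℝ) : ℂ) • e t) = ((Real.exp (-t) : ℝ) : ℂ) • T μ t z := by
      intro t
      rw [map_smul]
      rfl
    simp only [h3] at h2
    exact h2
  rw [h1]
  unfold v
  rw [map_sub, map_smul, M_one]
  rfl

theorem cogen_iter (n : ℕ) (z : H2 μ) :
    (fun z : H2 μ => z - (2 : ℂ) •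
      ∫ t in Ioi (0 : ℝ), ((Real.exp (-t) : ℝ) : ℂ) • T μ t z)^[n] z = M μ (v ^ n) z := by
  have h1 : (fun z : H2 μ => z - (2 : ℂ) •
      ∫ t in Ioi (0 : ℝ), ((Real.exp (-t) : ℝ) : ℂ) • T μ t z) = fun z => M μ v z := by
    funext z
    exact cogen z
  rw [h1]
  induction n with
  | zero => rw [Function.iterate_zero, id, pow_zero, M_one]; rfl
  | succ n ih => rw [Function.iterate_succ_apply', ih, pow_succ', M_mul]; rfl

theorem v_eq (x : Kc) : v x = -E 0 1 x := by
  have hx : (1 - I * ((x : ℝ) : ℂ)) ≠ 0 := by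
    intro h
    have := congrArg Complex.re h
    simp at this
  have h1 : v x = 1 - 2 * (1 / (1 - I * ((x : ℝ) : ℂ))) := rfl
  have h2 : E 0 1 x = ((1 : ℂ) + I * ((x : ℝ) : ℂ)) ^ 2 / (1 + ((x : ℝ) : ℂ) ^ 2) := by
    unfold E F
    have h3 : I * ((0 * (x : ℝ) + 1 * (2 * Real.arctan x) : ℝ) : ℂ)
        = ((Real.arctan x : ℝ) : ℂ) * I + ((Real.arctan x : ℝ) : ℂ) * I := by
      push_cast; ring
    rw [h3, Complex.exp_add, Complex.exp_mul_I, ← Complex.ofReal_cos, ← Complex.ofReal_sin,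
      Real.cos_arctan, Real.sin_arctan]
    have h4 : (0 : ℝ) < 1 + (x : ℝ) ^ 2 := by positivity
    have h5 : (√(1 + (x : ℝ) ^ 2) : ℂ) ^ 2 = 1 + ((x : ℝ) : ℂ) ^ 2 := by
      rw [← Complex.ofReal_pow, Real.sq_sqrt h4.le]
      push_cast
      ring
    have h6 : (√(1 + (x : ℝ) ^ 2) : ℂ) ≠ 0 := by
      exact_mod_cast (Real.sqrt_pos.2 h4).ne'
    push_cast
    rw [← h5]
    field_simp
  have h7 : (1 : ℂ) + ((x : ℝ) : ℂ) ^ 2 = (1 - I * ((x : ℝ) : ℂ)) * (1 + I * ((x : ℝ) : ℂ)) := by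
    ring_nf
    rw [I_sq]
    ring
  have hx' : (1 + I * ((x : ℝ) : ℂ)) ≠ 0 := by
    intro h
    have := congrArg Complex.re h
    simp at this
  rw [h1, h2, h7]
  field_simp
  ring

theorem E_pow (x : ℝ) (n : ℕ) : (E 0 1 x) ^ n = E 0 n x := by
  unfold E
  rw [← Complex.exp_nat_mul]
  congr 1
  push_cast
  ring

theorem nk_even (k : ℕ) : Even (nk k) := by
  unfold nk
  exact (Nat.even_pow.2 ⟨even_two, by omega⟩)

theorem not_weakly_stable
    (hlow : ∀ k : ℕ, 1 / 5 ≤ (∫ x : Kc, E 0 (nk k) x ∂μ).re) :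
    ¬ ∀ x y : H2 μ, Tendsto (fun n : ℕ => inner ℂ ((fun z : H2 μ => z - (2 : ℂ) •
      ∫ t in Ioi (0 : ℝ), ((Real.exp (-t) : ℝ) : ℂ) • T μ t z)^[n] x) y) atTop (𝓝 0) := by
  intro h
  have h1 := h (tl 1) (tl 1)
  simp only [cogen_iter, M_tl, mul_one] at h1
  have h2 : Tendsto nk atTop atTop := by
    refine StrictMono.tendsto_atTop ?_
    refine strictMono_nat_of_lt_succ fun k => ?_
    rw [nk_succ]
    have := nk_ge k
    omega
  have h3 := (Complex.continuous_re.tendsto _).comp (h1.comp h2)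
  have h4 : ∀ k, (Complex.re ∘ (fun n : ℕ => inner ℂ (tl (v ^ n) : H2 μ) (tl 1)) ∘ nk) k
      = (∫ x : Kc, E 0 (nk k) x ∂μ).re := by
    intro k
    simp only [Function.comp]
    have h5 : inner ℂ (tl (v ^ nk k) : H2 μ) (tl 1)
        = starRingEnd ℂ (∫ x : Kc, E 0 (nk k) x ∂μ) := by
      rw [inner_tl, ← integral_conj]
      congr 1
      funext x
      rw [ContinuousMap.one_apply, mul_one, ContinuousMap.pow_apply, v_eq,
        (nk_even k).neg_pow, E_pow]
    rw [h5, Complex.conj_re]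
  have h6 : Tendsto (fun k => (∫ x : Kc, E 0 (nk k) x ∂μ).re) atTop (𝓝 0) := by
    have := h3.congr h4
    simpa using this
  have h7 := ge_of_tendsto h6 (Eventually.of_forall hlow)
  norm_num at h7

/-- The functions whose Fourier transform against `μ` vanishes at infinity. -/
def Rf (μ : Measure Kc) (f : C(Kc, ℂ)) : Prop := Tendsto (fun t : ℝ => ∫ x, e (-t) x * f x ∂μ) atTop (𝓝 0)

theorem cont_int (f : C(Kc, ℂ)) : Integrable f μ :=
  (BoundedContinuousFunction.mkOfCompact f).integrable _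

theorem Rf_zero : Rf μ 0 := by
  unfold Rf
  simp

theorem Rf_add {f g : C(Kc, ℂ)} (hf : Rf μ f) (hg : Rf μ g) : Rf μ (f + g) := by
  unfold Rf at *
  have := hf.add hg
  rw [add_zero] at this
  refine this.congr fun t => ?_
  rw [← integral_add]
  · congr 1
    funext x
    rw [ContinuousMap.add_apply]
    ring
  · exact cont_int (e (-t) * f)
  · exact cont_int (e (-t) * g)

theorem Rf_smul (c : ℂ) {f : C(Kc, ℂ)} (hf : Rf μ f) : Rf μ (c • f) := by
  unfold Rf at *
  have := hf.const_mul c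
  rw [mul_zero] at this
  refine this.congr fun t => ?_
  rw [← integral_const_mul]
  congr 1
  funext x
  rw [ContinuousMap.smul_apply, smul_eq_mul]
  ring

theorem Rf_bound (h : C(Kc, ℂ)) (t : ℝ) : ‖∫ x, e (-t) x * h x ∂μ‖ ≤ ‖h‖ := by
  have h1 := norm_integral_le_of_norm_le_const (μ := μ) (C := ‖h‖)
    (f := fun x => e (-t) x * h x) (Eventually.of_forall fun x => by
      rw [norm_mul]
      calc ‖e (-t) x‖ * ‖h x‖ ≤ 1 * ‖h‖ :=
            mul_le_mul (((e (-t)).norm_coe_le_norm x).trans (e_norm _)) (h.norm_coe_le_norm x)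
              (norm_nonneg _) zero_le_one
        _ = ‖h‖ := one_mul _)
  simpa using h1

theorem Rf_closed {f : C(Kc, ℂ)} (hf : ∀ ε > 0, ∃ g, Rf μ g ∧ ‖f - g‖ < ε) : Rf μ f := by
  unfold Rf at *
  rw [Metric.tendsto_nhds]
  intro ε hε
  obtain ⟨g, hg, hfg⟩ := hf (ε / 2) (by positivity)
  rw [Metric.tendsto_nhds] at hg
  filter_upwards [hg (ε / 2) (by positivity)] with t ht
  rw [dist_zero_right] at ht ⊢
  have h1 : ∫ x, e (-t) x * f x ∂μ = (∫ x, e (-t) x * g x ∂μ) + ∫ x, e (-t) x * (f - g) x ∂μ := by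
    rw [← integral_add]
    · congr 1
      funext x
      rw [ContinuousMap.sub_apply]
      ring
    · exact cont_int (e (-t) * g)
    · exact cont_int (e (-t) * (f - g))
  rw [h1]
  calc _ ≤ _ := norm_add_le _ _
    _ < ε / 2 + ε / 2 := add_lt_add ht ((Rf_bound _ t).trans_lt hfg)
    _ = ε := by ring

theorem Rf_e (hup : ∀ t : ℝ, t ≠ 0 → ‖∫ x : Kc, E t 0 x ∂μ‖ ≤ 2 * D t) (a : ℝ) : Rf μ (e a) := by
  unfold Rf
  have h1 : ∀ t : ℝ, ∫ x, e (-t) x * e a x ∂μ = ∫ x : Kc, E (a - t) 0 x ∂μ := by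
    intro t
    congr 1
    funext x
    have h2 : e (a - t) x = e (-t) x * e a x := by
      rw [← ContinuousMap.mul_apply, ← e_add]
      congr 2
      ring
    exact h2.symm
  simp only [h1]
  refine squeeze_zero_norm' (a := fun t => 2 * D (t - a)) ?_ ?_
  · filter_upwards [eventually_gt_atTop a] with t ht
    have := hup (a - t) (by intro h; linarith)
    rwa [← D_neg, neg_sub] at this
  · have h2 : Tendsto (fun t : ℝ => t - a) atTop atTop := tendsto_atTop_add_const_right _ _ tendsto_id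
    simpa using (D_tendsto.comp h2).const_mul 2

/-- The span of the exponentials. -/
noncomputable def A : StarSubalgebra ℂ C(Kc, ℂ) where
  toSubalgebra := (Submodule.span ℂ (range e)).toSubalgebra
    (by rw [← e_zero]; exact Submodule.subset_span ⟨0, rfl⟩)
    (by
      intro x y hx hy
      induction hx using Submodule.span_induction with
      | mem x hx =>
        obtain ⟨s, rfl⟩ := hx
        induction hy using Submodule.span_induction with
        | mem y hy =>
          obtain ⟨t, rfl⟩ := hy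
          rw [← e_add]
          exact Submodule.subset_span ⟨_, rfl⟩
        | zero => rw [mul_zero]; exact Submodule.zero_mem _
        | add a b _ _ ha hb => rw [mul_add]; exact Submodule.add_mem _ ha hb
        | smul c a _ ha => rw [mul_smul_comm]; exact Submodule.smul_mem _ _ ha
      | zero => rw [zero_mul]; exact Submodule.zero_mem _
      | add a b _ _ ha hb => rw [add_mul]; exact Submodule.add_mem _ ha hb
      | smul c a _ ha => rw [smul_mul_assoc]; exact Submodule.smul_mem _ _ ha)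
  star_mem' := by
    intro a ha
    have ha' : a ∈ Submodule.span ℂ (range e) := ha
    show star a ∈ Submodule.span ℂ (range e)
    clear ha
    induction ha' using Submodule.span_induction with
    | mem x hx =>
      obtain ⟨s, rfl⟩ := hx
      have : star (e s) = e (-s) := by
        ext x
        rw [ContinuousMap.star_apply]
        exact e_star s x
      rw [this]
      exact Submodule.subset_span ⟨_, rfl⟩
    | zero => rw [star_zero]; exact Submodule.zero_mem _
    | add a b _ _ ha hb => rw [star_add]; exact Submodule.add_mem _ ha hb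
    | smul c a _ ha => rw [star_smul]; exact Submodule.smul_mem _ _ ha

theorem A_sep : (A : StarSubalgebra ℂ C(Kc, ℂ)).SeparatesPoints := by
  intro x y hxy
  refine ⟨e 1, ⟨e 1, ?_, rfl⟩, ?_⟩
  · show e 1 ∈ Submodule.span ℂ (range e)
    exact Submodule.subset_span ⟨_, rfl⟩
  · intro h
    apply hxy
    rw [e_apply, e_apply, Complex.exp_eq_exp_iff_exists_int] at h
    obtain ⟨n, hn⟩ := h
    have h1 := congrArg Complex.im hn
    simp at h1
    have hx := x.2
    have hy := y.2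
    have hpi := Real.pi_gt_three
    have hn0 : n = 0 := by
      by_contra hne
      rcases lt_or_gt_of_ne hne with h | h
      · have : (n : ℝ) ≤ -1 := by exact_mod_cast (by omega : n ≤ -1)
        nlinarith [hx.1, hx.2, hy.1, hy.2]
      · have : (1 : ℝ) ≤ n := by exact_mod_cast h
        nlinarith [hx.1, hx.2, hy.1, hy.2]
    rw [hn0] at h1
    apply Subtype.ext
    simpa using h1

theorem Rf_all (hup : ∀ t : ℝ, t ≠ 0 → ‖∫ x : Kc, E t 0 x ∂μ‖ ≤ 2 * D t) (f : C(Kc, ℂ)) :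
    Rf μ f := by
  apply Rf_closed
  intro ε hε
  have h1 := ContinuousMap.starSubalgebra_topologicalClosure_eq_top_of_separatesPoints A A_sep
  have h2 : f ∈ A.topologicalClosure := by rw [h1]; trivial
  have h3 : f ∈ closure (A : Set C(Kc, ℂ)) := h2
  rw [Metric.mem_closure_iff] at h3
  obtain ⟨g, hg, hfg⟩ := h3 ε hε
  rw [dist_eq_norm] at hfg
  refine ⟨g, ?_, hfg⟩
  have hg' : g ∈ Submodule.span ℂ (range e) := hg
  clear hg hfg
  induction hg' using Submodule.span_induction with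
  | mem x hx =>
    obtain ⟨s, rfl⟩ := hx
    exact Rf_e hup s
  | zero => exact Rf_zero
  | add a b _ _ ha hb => exact Rf_add ha hb
  | smul c a _ ha => exact Rf_smul c ha

theorem T_norm (t : ℝ) : ‖T μ t‖ ≤ 1 := (M_norm _).trans (e_norm t)

theorem weak_cont (hup : ∀ t : ℝ, t ≠ 0 → ‖∫ x : Kc, E t 0 x ∂μ‖ ≤ 2 * D t) (f g : C(Kc, ℂ)) :
    Tendsto (fun t : ℝ => inner ℂ (T μ t (tl f)) (tl g)) atTop (𝓝 0) := by
  have h1 := Rf_all hup (star f * g)
  unfold Rf at h1
  refine h1.congr fun t => ?_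
  unfold T
  rw [M_tl, inner_tl]
  congr 1
  funext x
  rw [ContinuousMap.mul_apply, ContinuousMap.mul_apply, map_mul, e_star, ContinuousMap.star_apply]
  simp only [RCLike.star_def]
  ring

theorem dense_tl (x : H2 μ) {ε : ℝ} (hε : 0 < ε) : ∃ f : C(Kc, ℂ), ‖x - tl f‖ < ε := by
  have h := ContinuousMap.toLp_denseRange (E := ℂ) (μ := μ) ℂ (p := 2) (by norm_num)
  obtain ⟨y, hf, ⟨f, rfl⟩⟩ := (Metric.dense_iff.1 h) x ε hε
  refine ⟨f, ?_⟩
  rw [Metric.mem_ball, dist_comm, dist_eq_norm] at hf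
  exact hf

theorem weakly_stable (hup : ∀ t : ℝ, t ≠ 0 → ‖∫ x : Kc, E t 0 x ∂μ‖ ≤ 2 * D t) (x y : H2 μ) :
    Tendsto (fun t : ℝ => inner ℂ (T μ t x) y) atTop (𝓝 0) := by
  -- first for `y` continuous
  have step1 : ∀ (x : H2 μ) (g : C(Kc, ℂ)),
      Tendsto (fun t : ℝ => inner ℂ (T μ t x) (tl g)) atTop (𝓝 0) := by
    intro x g
    rw [Metric.tendsto_nhds]
    intro ε hε
    obtain ⟨f, hf⟩ := dense_tl x (ε := ε / (2 * (‖(tl g : H2 μ)‖ + 1))) (by positivity)
    have h1 := weak_cont hup f g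
    rw [Metric.tendsto_nhds] at h1
    filter_upwards [h1 (ε / 2) (by positivity)] with t ht
    rw [dist_zero_right] at ht ⊢
    have h2 : inner ℂ (T μ t x) (tl g) = inner ℂ (T μ t (tl f)) (tl g)
        + inner ℂ (T μ t (x - tl f)) (tl g) := by
      rw [← inner_add_left, ← map_add, add_sub_cancel]
    rw [h2]
    have h3 : ‖inner ℂ (T μ t (x - tl f)) (tl g : H2 μ)‖ ≤ ‖x - tl f‖ * ‖(tl g : H2 μ)‖ := by
      refine (norm_inner_le_norm _ _).trans ?_
      refine mul_le_mul_of_nonneg_right ?_ (norm_nonneg _)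
      exact ((T μ t).le_opNorm _).trans (mul_le_of_le_one_left (norm_nonneg _) (T_norm t))
    have h4 : ‖x - tl f‖ * ‖(tl g : H2 μ)‖ ≤ ε / 2 := by
      have h5 : ‖x - tl f‖ * (2 * (‖(tl g : H2 μ)‖ + 1)) ≤ ε := by
        rw [lt_div_iff₀ (by positivity)] at hf
        exact hf.le
      nlinarith [norm_nonneg (x - tl f), norm_nonneg (tl g : H2 μ)]
    calc _ ≤ _ := norm_add_le _ _
      _ < ε / 2 + ε / 2 := add_lt_add_of_lt_of_le ht (h3.trans h4)
      _ = ε := by ring
  rw [Metric.tendsto_nhds]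
  intro ε hε
  obtain ⟨g, hg⟩ := dense_tl y (ε := ε / (2 * (‖x‖ + 1))) (by positivity)
  have h1 := step1 x g
  rw [Metric.tendsto_nhds] at h1
  filter_upwards [h1 (ε / 2) (by positivity)] with t ht
  rw [dist_zero_right] at ht ⊢
  have h2 : inner ℂ (T μ t x) y = inner ℂ (T μ t x) (tl g) + inner ℂ (T μ t x) (y - tl g) := by
    rw [← inner_add_right, add_sub_cancel]
  rw [h2]
  have h3 : ‖inner ℂ (T μ t x) (y - tl g)‖ ≤ ‖x‖ * ‖y - tl g‖ := by
    refine (norm_inner_le_norm _ _).trans ?_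
    refine mul_le_mul_of_nonneg_right ?_ (norm_nonneg _)
    exact ((T μ t).le_opNorm _).trans (mul_le_of_le_one_left (norm_nonneg _) (T_norm t))
  have h4 : ‖x‖ * ‖y - tl g‖ ≤ ε / 2 := by
    have h5 : ‖y - tl g‖ * (2 * (‖x‖ + 1)) ≤ ε := by
      rw [lt_div_iff₀ (by positivity)] at hg
      exact hg.le
    nlinarith [norm_nonneg (y - tl g), norm_nonneg x]
  calc _ ≤ _ := norm_add_le _ _
    _ < ε / 2 + ε / 2 := add_lt_add_of_lt_of_le ht (h3.trans h4)
    _ = ε := by ring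

end Pool.Agent.Q189.RP
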