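import Pool.Agent.Q189.RP.Vdc

/-!
# The nonlinear Riesz product: uniform estimates
-/

set_option autoImplicit false

open MeasureTheory Set Filter Topology Complex

namespace Pool.Agent.Q189.RP

/-- The frequencies. -/
@[irreducible] def nk (k : ℕ) : ℕ := 2 ^ (4 * k + 24)

/-- The partial products. -/
noncomputable def P : ℕ → ℝ → ℝ
  | 0, _ => 1
  | k + 1, x => P k x * (1 + Real.cos (nk k * F x))

theorem P_nonneg (k : ℕ) (x : ℝ) : 0 ≤ P k x := by
  induction k with
  | zero => exact zero_le_one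
  | succ k ih =>
    have := Real.neg_one_le_cos (nk k * F x)
    exact mul_nonneg ih (by linarith)

theorem F_continuous : Continuous F := by
  unfold F
  exact continuous_const.mul Real.continuous_arctan

theorem P_continuous (k : ℕ) : Continuous (P k) := by
  induction k with
  | zero => exact continuous_const
  | succ k ih =>
    exact ih.mul (continuous_const.add (Real.continuous_cos.comp (continuous_const.mul F_continuous)))

/-- The exponentials. -/
noncomputable def E (t m x : ℝ) : ℂ := cexp (I * ((t * x + m * F x : ℝ) : ℂ))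

theorem E_continuous (t m : ℝ) : Continuous (E t m) := by
  unfold E
  have := F_continuous
  fun_prop

/-- Their integrals against the partial products. -/
noncomputable def J (k : ℕ) (t m : ℝ) : ℂ := ∫ x in (1 : ℝ)..2, E t m x * (P k x : ℂ)

theorem J_zero (t m : ℝ) : J 0 t m = J0 t m := by
  unfold J J0 E P
  simp

theorem E_cos (t m n x : ℝ) : E t m x * (Real.cos (n * F x) : ℂ)
    = (E t (m + n) x + E t (m - n) x) / 2 := by
  unfold E
  rw [Complex.ofReal_cos, Complex.cos]
  have h1 : cexp (I * ((t * x + (m + n) * F x : ℝ) : ℂ))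
      = cexp (I * ((t * x + m * F x : ℝ) : ℂ)) * cexp (((n * F x : ℝ) : ℂ) * I) := by
    rw [← Complex.exp_add]; congr 1; push_cast; ring
  have h2 : cexp (I * ((t * x + (m - n) * F x : ℝ) : ℂ))
      = cexp (I * ((t * x + m * F x : ℝ) : ℂ)) * cexp (-((n * F x : ℝ) : ℂ) * I) := by
    rw [← Complex.exp_add]; congr 1; push_cast; ring
  rw [h1, h2]
  ring

theorem J_int (k : ℕ) (t m : ℝ) :
    IntervalIntegrable (fun x => E t m x * (P k x : ℂ)) volume 1 2 :=
  ((E_continuous t m).mul (continuous_ofReal.comp (P_continuous k))).intervalIntegrable _ _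

theorem J_succ (k : ℕ) (t m : ℝ) :
    J (k + 1) t m = J k t m + (J k t (m + nk k) + J k t (m - nk k)) / 2 := by
  unfold J
  rw [← intervalIntegral.integral_add (J_int k t _) (J_int k t _),
    ← intervalIntegral.integral_div, ← intervalIntegral.integral_add (J_int k t _)]
  · refine intervalIntegral.integral_congr fun x _ => ?_
    have h := E_cos t m (nk k) x
    show E t m x * ((P k x * (1 + Real.cos (nk k * F x)) : ℝ) : ℂ) = _
    rw [Complex.ofReal_mul, Complex.ofReal_add, Complex.ofReal_one]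
    rw [← add_mul]
    have h2 : E t m x * ((P k x : ℂ) * (1 + ((Real.cos (nk k * F x) : ℝ) : ℂ)))
        = E t m x * (P k x : ℂ) + (E t m x * ((Real.cos (nk k * F x) : ℝ) : ℂ)) * (P k x : ℂ) := by
      ring
    rw [h2, h]
    ring
  · exact ((J_int k t _).add (J_int k t _)).div_const 2

/-- The decay rate. -/
noncomputable def β (t r : ℝ) : ℝ := 30 / √(max r |t|)

theorem β_nonneg (t r : ℝ) : 0 ≤ β t r := by unfold β; positivity

theorem β_anti (t : ℝ) {r s : ℝ} (hr : 0 < r) (hrs : r ≤ s) : β t s ≤ β t r := by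
  unfold β
  apply div_le_div_of_nonneg_left (by norm_num)
  · exact Real.sqrt_pos.2 (lt_of_lt_of_le hr (le_max_left _ _))
  · exact Real.sqrt_le_sqrt (max_le_max hrs le_rfl)

/-- The sum of the frequencies. -/
def Mk : ℕ → ℕ
  | 0 => 0
  | k + 1 => Mk k + nk k

theorem nk_succ (k : ℕ) : nk (k + 1) = 16 * nk k := by
  unfold nk
  rw [show 4 * (k + 1) + 24 = 4 + (4 * k + 24) by ring, pow_add]
  norm_num

theorem nk_ge (k : ℕ) : 2 ^ 24 ≤ nk k := by
  unfold nk
  exact Nat.pow_le_pow_right (by norm_num) (by omega)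

theorem Mk_le (k : ℕ) : 15 * Mk k ≤ nk k := by
  induction k with
  | zero => simp [Mk]
  | succ k ih =>
    rw [nk_succ, Mk]
    omega

theorem J_bound (k : ℕ) (t m : ℝ) (h : (Mk k : ℝ) + 1 ≤ |m|) :
    ‖J k t m‖ ≤ 2 ^ k * β t (|m| - Mk k) := by
  induction k generalizing m with
  | zero =>
    rw [J_zero]
    simp only [Mk, Nat.cast_zero, zero_add] at h
    simpa [Mk, β] using J0_bound t m h
  | succ k ih =>
    have hM : ((Mk (k + 1) : ℕ) : ℝ) = Mk k + nk k := by simp [Mk]
    rw [hM] at h ⊢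
    have hn : (0 : ℝ) ≤ nk k := Nat.cast_nonneg _
    have key : ∀ m' : ℝ, |m| - nk k ≤ |m'| → ‖J k t m'‖ ≤ 2 ^ k * β t (|m| - (Mk k + nk k)) := by
      intro m' hm'
      refine (ih m' (by linarith)).trans ?_
      refine mul_le_mul_of_nonneg_left ?_ (by positivity)
      exact β_anti t (by linarith) (by linarith)
    have k0 := key m (by linarith)
    have k1 := key (m + nk k) (by
      have := abs_sub_abs_le_abs_sub m (-(nk k : ℝ))
      rw [abs_neg, abs_of_nonneg hn, sub_neg_eq_add] at this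
      exact this)
    have k2 := key (m - nk k) (by
      have := abs_sub_abs_le_abs_sub m (nk k : ℝ)
      rw [abs_of_nonneg hn] at this
      exact this)
    rw [J_succ]
    calc ‖J k t m + (J k t (m + nk k) + J k t (m - nk k)) / 2‖
        ≤ ‖J k t m‖ + (‖J k t (m + nk k)‖ + ‖J k t (m - nk k)‖) / 2 := by
          refine (norm_add_le _ _).trans (add_le_add le_rfl ?_)
          rw [norm_div]
          have : ‖(2 : ℂ)‖ = 2 := by simp
          rw [this]
          exact div_le_div_of_nonneg_right (norm_add_le _ _) (by norm_num)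
      _ ≤ 2 ^ (k + 1) * β t (|m| - (Mk k + nk k)) := by
          rw [pow_succ]
          linarith

/-- The increments. -/
noncomputable def b (k : ℕ) (t : ℝ) : ℝ := 2 ^ k * β t (nk k / 2)

theorem b_nonneg (k : ℕ) (t : ℝ) : 0 ≤ b k t := mul_nonneg (by positivity) (β_nonneg _ _)

theorem Mk_le' (k : ℕ) : (Mk k : ℝ) ≤ nk k / 15 ∧ (2 : ℝ) ^ 24 ≤ nk k := by
  constructor
  · have : (15 * Mk k : ℝ) ≤ nk k := by exact_mod_cast Mk_le k
    linarith
  · exact_mod_cast nk_ge k

theorem J_far (k : ℕ) (t m : ℝ) (h : 3 / 4 * (nk k : ℝ) ≤ |m|) : ‖J k t m‖ ≤ b k t := by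
  obtain ⟨h1, h2⟩ := Mk_le' k
  have h3 : (0 : ℝ) < nk k := lt_of_lt_of_le (by norm_num) h2
  have h2' : (1000 : ℝ) ≤ nk k := le_trans (by norm_num) h2
  refine (J_bound k t m (by linarith)).trans ?_
  refine mul_le_mul_of_nonneg_left ?_ (by positivity)
  exact β_anti t (by linarith) (by linarith)

theorem J_step (k : ℕ) (t m : ℝ) (h : |m| ≤ nk k / 4) : ‖J (k + 1) t m - J k t m‖ ≤ b k t := by
  have hn : (0 : ℝ) ≤ nk k := Nat.cast_nonneg _
  have k1 := J_far k t (m + nk k) (by
      have := abs_sub_abs_le_abs_sub (nk k : ℝ) (-m)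
      rw [abs_neg, abs_of_nonneg hn, sub_neg_eq_add, add_comm] at this
      linarith)
  have k2 := J_far k t (m - nk k) (by
      have := abs_sub_abs_le_abs_sub (nk k : ℝ) m
      rw [abs_of_nonneg hn, abs_sub_comm] at this
      linarith)
  rw [J_succ, add_sub_cancel_left, norm_div]
  have : ‖(2 : ℂ)‖ = 2 := by simp
  rw [this, div_le_iff₀ (by norm_num)]
  refine (norm_add_le _ _).trans ?_
  linarith

theorem J_sum (j K : ℕ) (hjK : j ≤ K) (t m : ℝ) (h : |m| ≤ nk j / 4) :
    ‖J K t m - J j t m‖ ≤ ∑ k ∈ Finset.Ico j K, b k t := by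
  induction K, hjK using Nat.le_induction with
  | base => simp
  | succ K hK ih =>
    rw [Finset.sum_Ico_succ_top hK]
    have hmono : (nk j : ℝ) ≤ nk K := by
      have : nk j ≤ nk K := by
        unfold nk
        exact Nat.pow_le_pow_right (by norm_num) (by omega)
      exact_mod_cast this
    calc ‖J (K + 1) t m - J j t m‖ = ‖(J K t m - J j t m) + (J (K + 1) t m - J K t m)‖ := by
          congr 1; ring
      _ ≤ _ := (norm_add_le _ _).trans (add_le_add ih (J_step K t m (by linarith)))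

theorem b_le (k : ℕ) (t : ℝ) : b k t ≤ 1 / 64 * (1 / 2) ^ k := by
  have h1 : β t (nk k / 2) ≤ 30 / (2 ^ (2 * k + 11)) := by
    unfold β
    apply div_le_div_of_nonneg_left (by norm_num) (by positivity)
    rw [Real.le_sqrt (by positivity)]
    · refine le_trans ?_ (le_max_left _ _)
      unfold nk
      push_cast
      rw [← pow_mul, le_div_iff₀ (by norm_num), ← pow_succ]
      exact pow_le_pow_right₀ (by norm_num) (by omega)
    · exact le_trans (by positivity) (le_max_left _ _)
  have h2 : b k t ≤ 2 ^ k * (30 / (2 ^ (2 * k + 11))) := mul_le_mul_of_nonneg_left h1 (by positivity)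
  refine h2.trans ?_
  rw [one_div_pow, pow_add, pow_mul', mul_div_assoc', div_le_iff₀ (by positivity)]
  have h3 : (0 : ℝ) < 2 ^ k := by positivity
  have h4 : (1 : ℝ) / 64 * (1 / 2 ^ k) * ((2 ^ k) ^ 2 * 2 ^ 11) = 32 * 2 ^ k := by
    field_simp
    norm_num
  rw [h4]
  linarith

theorem sum_b_le (j K : ℕ) (t : ℝ) : ∑ k ∈ Finset.Ico j K, b k t ≤ 1 / 32 := by
  calc ∑ k ∈ Finset.Ico j K, b k t ≤ ∑ k ∈ Finset.range K, b k t := by
        refine Finset.sum_le_sum_of_subset_of_nonneg ?_ fun k _ _ => b_nonneg k t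
        intro k hk
        rw [Finset.mem_range]
        exact (Finset.mem_Ico.1 hk).2
    _ ≤ ∑ k ∈ Finset.range K, 1 / 64 * (1 / 2 : ℝ) ^ k := Finset.sum_le_sum fun k _ => b_le k t
    _ = 1 / 64 * ∑ k ∈ Finset.range K, (1 / 2 : ℝ) ^ k := by rw [Finset.mul_sum]
    _ ≤ 1 / 64 * 2 := by
        refine mul_le_mul_of_nonneg_left ?_ (by norm_num)
        exact sum_geometric_two_le K
    _ = 1 / 32 := by norm_num

theorem J0_zero_zero : J0 0 0 = 1 := by
  unfold J0
  simp
  norm_num

theorem J_mass (K : ℕ) : ‖J K 0 0 - 1‖ ≤ 1 / 32 := by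
  have h := J_sum 0 K (Nat.zero_le K) 0 0 (by rw [abs_zero]; positivity)
  rw [J_zero, J0_zero_zero] at h
  exact h.trans (sum_b_le 0 K 0)

/-- The total masses. -/
noncomputable def mass (K : ℕ) : ℝ := ∫ x in (1 : ℝ)..2, P K x

theorem J_eq_mass (K : ℕ) : J K 0 0 = (mass K : ℂ) := by
  unfold J mass E
  rw [← intervalIntegral.integral_ofReal]
  simp

theorem mass_bounds (K : ℕ) : 31 / 32 ≤ mass K ∧ mass K ≤ 33 / 32 := by
  have h := J_mass K
  rw [J_eq_mass, ← Complex.ofReal_one, ← Complex.ofReal_sub, Complex.norm_real, Real.norm_eq_abs,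
    abs_le] at h
  constructor <;> linarith [h.1, h.2]

theorem J_lower (k K : ℕ) (hkK : k < K) : 1 / 4 ≤ (J K 0 (nk k)).re := by
  have hn : (0 : ℝ) ≤ nk k := Nat.cast_nonneg _
  have h1 : ‖J K 0 (nk k) - J (k + 1) 0 (nk k)‖ ≤ 1 / 32 := by
    refine (J_sum (k + 1) K hkK 0 (nk k) ?_).trans (sum_b_le _ _ _)
    rw [abs_of_nonneg hn, nk_succ]
    push_cast
    linarith
  have hb : b k 0 ≤ 1 / 64 := by
    refine (b_le k 0).trans ?_
    have : (1 / 2 : ℝ) ^ k ≤ 1 := pow_le_one₀ (by norm_num) (by norm_num)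
    linarith
  have h2 : ‖J k 0 (nk k)‖ ≤ 1 / 64 := (J_far k 0 _ (by rw [abs_of_nonneg hn]; linarith)).trans hb
  have h3 : ‖J k 0 ((nk k : ℝ) + nk k)‖ ≤ 1 / 64 :=
    (J_far k 0 _ (by rw [abs_of_nonneg (by linarith)]; linarith)).trans hb
  have h4 := J_succ k 0 (nk k)
  rw [sub_self, J_eq_mass] at h4
  have h5 : J K 0 (nk k) = (J K 0 (nk k) - J (k + 1) 0 (nk k)) + J k 0 (nk k)
      + J k 0 ((nk k : ℝ) + nk k) / 2 + ((mass k / 2 : ℝ) : ℂ) := by
    rw [h4]; push_cast; ring
  rw [h5, Complex.add_re, Complex.add_re, Complex.add_re, Complex.ofReal_re]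
  have r1 := (abs_le.1 ((Complex.abs_re_le_norm _).trans h1)).1
  have r2 := (abs_le.1 ((Complex.abs_re_le_norm _).trans h2)).1
  have r3 := (abs_le.1 ((Complex.abs_re_le_norm _).trans h3)).1
  have r4 : (J k 0 ((nk k : ℝ) + nk k) / 2).re = (J k 0 ((nk k : ℝ) + nk k)).re / 2 := by
    rw [show (2 : ℂ) = ((2 : ℝ) : ℂ) by norm_num, Complex.div_ofReal_re]
  rw [r4]
  have := (mass_bounds k).1
  linarith

/-- The decay rate of the Fourier transform. -/
noncomputable def D (t : ℝ) : ℝ := 4 / |t| + ∑' k, b k t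

theorem b_summable (t : ℝ) : Summable fun k => b k t := by
  refine Summable.of_nonneg_of_le (fun k => b_nonneg k t) (fun k => b_le k t) ?_
  exact (summable_geometric_of_lt_one (by norm_num) (by norm_num)).mul_left _

theorem J_upper (K : ℕ) (t : ℝ) (ht : t ≠ 0) : ‖J K t 0‖ ≤ D t := by
  have h := J_sum 0 K (Nat.zero_le K) t 0 (by rw [abs_zero]; positivity)
  rw [J_zero] at h
  have h2 : ∑ k ∈ Finset.Ico 0 K, b k t ≤ ∑' k, b k t :=
    (b_summable t).sum_le_tsum _ fun k _ => b_nonneg k t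
  calc ‖J K t 0‖ = ‖J0 t 0 + (J K t 0 - J0 t 0)‖ := by congr 1; ring
    _ ≤ ‖J0 t 0‖ + ‖J K t 0 - J0 t 0‖ := norm_add_le _ _
    _ ≤ D t := add_le_add (J0_zero_bound t ht) (h.trans h2)

theorem D_neg (t : ℝ) : D (-t) = D t := by
  unfold D b β
  simp only [abs_neg]

theorem D_tendsto : Tendsto D atTop (𝓝 0) := by
  unfold D
  have h1 : Tendsto (fun t : ℝ => 4 / |t|) atTop (𝓝 0) :=
    tendsto_const_nhds.div_atTop tendsto_abs_atTop_atTop
  have h2 : Tendsto (fun t : ℝ => ∑' k, b k t) atTop (𝓝 (∑' _k : ℕ, (0 : ℝ))) := by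
    refine tendsto_tsum_of_dominated_convergence (bound := fun k => 1 / 64 * (1 / 2) ^ k) ?_ ?_ ?_
    · exact (summable_geometric_of_lt_one (by norm_num) (by norm_num)).mul_left _
    · intro k
      unfold b β
      have h3 : Tendsto (fun t : ℝ => √(max ((nk k : ℝ) / 2) |t|)) atTop atTop := by
        refine Real.tendsto_sqrt_atTop.comp ?_
        exact tendsto_atTop_mono (fun t => le_max_right _ _) tendsto_abs_atTop_atTop
      have h4 := (tendsto_const_nhds (x := (30 : ℝ))).div_atTop h3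
      simpa using h4.const_mul (2 ^ k)
    · refine Eventually.of_forall fun t k => ?_
      rw [Real.norm_eq_abs, abs_of_nonneg (b_nonneg k t)]
      exact b_le k t
  rw [tsum_zero] at h2
  simpa using h1.add h2

end Pool.Agent.Q189.RP
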