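import Mathlib

/-!
# The van der Corput estimates for the phase `t x + 2 m arctan x` on `[1,2]`
-/

set_option autoImplicit false

open MeasureTheory Set Filter Topology Complex

namespace Pool.Agent.Q189.RP

/-- First derivative test. -/
theorem vdc1 {a b l : ℝ} (hab : a ≤ b) (hl : 0 < l) {φ φ1 φ2 : ℝ → ℝ}
    (h1 : ∀ x ∈ Icc a b, HasDerivAt φ (φ1 x) x) (h2 : ∀ x ∈ Icc a b, HasDerivAt φ1 (φ2 x) x)
    (hc : ContinuousOn φ2 (Icc a b)) (hpos : ∀ x ∈ Icc a b, 0 ≤ φ2 x)
    (hlow : ∀ x ∈ Icc a b, l ≤ |φ1 x|) :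
    ‖∫ x in a..b, cexp (I * (φ x : ℂ))‖ ≤ 4 / l := by
  have hne : ∀ x ∈ Icc a b, φ1 x ≠ 0 := by
    intro x hx h
    have := hlow x hx
    rw [h, abs_zero] at this
    linarith
  have huI : uIcc a b = Icc a b := uIcc_of_le hab
  have hφ1c : ContinuousOn φ1 (Icc a b) := fun x hx => (h2 x hx).continuousAt.continuousWithinAt
  have hφc : ContinuousOn φ (Icc a b) := fun x hx => (h1 x hx).continuousAt.continuousWithinAt
  set u : ℝ → ℂ := fun x => -I * (((φ1 x)⁻¹ : ℝ) : ℂ) with hu
  set u' : ℝ → ℂ := fun x => -I * ((-φ2 x / (φ1 x) ^ 2 : ℝ) : ℂ) with hu'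
  set v : ℝ → ℂ := fun x => cexp (I * (φ x : ℂ)) with hv
  set v' : ℝ → ℂ := fun x => cexp (I * (φ x : ℂ)) * (I * (φ1 x : ℂ)) with hv'
  have hud : ∀ x ∈ uIcc a b, HasDerivAt u (u' x) x := by
    intro x hx
    rw [huI] at hx
    exact (((h2 x hx).inv (hne x hx)).ofReal_comp).const_mul (-I)
  have hvd : ∀ x ∈ uIcc a b, HasDerivAt v (v' x) x := by
    intro x hx
    rw [huI] at hx
    exact (((h1 x hx).ofReal_comp).const_mul I).cexp
  have hvc : ContinuousOn v (Icc a b) := by
    rw [hv]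
    exact (continuousOn_const.mul (continuous_ofReal.comp_continuousOn hφc)).cexp
  have hv'c : ContinuousOn v' (Icc a b) :=
    hvc.mul (continuousOn_const.mul (continuous_ofReal.comp_continuousOn hφ1c))
  have hu'r : ContinuousOn (fun x => -φ2 x / (φ1 x) ^ 2) (Icc a b) :=
    hc.neg.div (hφ1c.pow 2) fun x hx => pow_ne_zero 2 (hne x hx)
  have hu'c : ContinuousOn u' (Icc a b) :=
    continuousOn_const.mul (continuous_ofReal.comp_continuousOn hu'r)
  have hibp := intervalIntegral.integral_mul_deriv_eq_deriv_mul hud hvd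
    ((huI ▸ hu'c).intervalIntegrable) ((huI ▸ hv'c).intervalIntegrable)
  have heq : ∫ x in a..b, cexp (I * (φ x : ℂ)) = ∫ x in a..b, u x * v' x := by
    refine intervalIntegral.integral_congr fun x hx => ?_
    rw [huI] at hx
    have h3 : (φ1 x : ℂ) ≠ 0 := by exact_mod_cast hne x hx
    simp only [hu, hv']
    push_cast
    field_simp
    rw [I_sq]
    ring
  have hvn : ∀ x, ‖v x‖ = 1 := by
    intro x
    rw [hv]
    simp only
    rw [mul_comm, Complex.norm_exp_ofReal_mul_I]
  have hun : ∀ x ∈ Icc a b, ‖u x‖ ≤ 1 / l := by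
    intro x hx
    rw [hu]
    simp only
    rw [norm_mul, norm_neg, Complex.norm_I, one_mul, Complex.norm_real, norm_inv, Real.norm_eq_abs,
      one_div]
    exact inv_anti₀ hl (hlow x hx)
  have ha : a ∈ Icc a b := ⟨le_rfl, hab⟩
  have hb : b ∈ Icc a b := ⟨hab, le_rfl⟩
  have hint : ‖∫ x in a..b, u' x * v x‖ ≤ 2 / l := by
    have h4 : ‖∫ x in a..b, u' x * v x‖ ≤ |∫ x in a..b, φ2 x / (φ1 x) ^ 2| := by
      refine intervalIntegral.norm_integral_le_abs_of_norm_le ?_ ?_
      · rw [uIoc_of_le hab]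
        refine (ae_restrict_iff' measurableSet_Ioc).2 (Eventually.of_forall fun x hx => ?_)
        have hx' : x ∈ Icc a b := Ioc_subset_Icc_self hx
        rw [norm_mul, hvn, mul_one, hu']
        simp only
        rw [norm_mul, norm_neg, Complex.norm_I, one_mul, Complex.norm_real, Real.norm_eq_abs,
          neg_div, abs_neg, abs_of_nonneg (div_nonneg (hpos x hx') (sq_nonneg _))]
      · refine ContinuousOn.intervalIntegrable ?_
        rw [huI]
        exact hc.div (hφ1c.pow 2) fun x hx => pow_ne_zero 2 (hne x hx)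
    have h5 : ∫ x in a..b, φ2 x / (φ1 x) ^ 2 = -(φ1 b)⁻¹ - -(φ1 a)⁻¹ := by
      refine intervalIntegral.integral_eq_sub_of_hasDerivAt (f := fun x => -(φ1 x)⁻¹) ?_ ?_
      · intro x hx
        rw [huI] at hx
        have := ((h2 x hx).inv (hne x hx)).neg
        refine this.congr_deriv ?_
        ring
      · refine ContinuousOn.intervalIntegrable ?_
        rw [huI]
        exact hc.div (hφ1c.pow 2) fun x hx => pow_ne_zero 2 (hne x hx)
    have h6 : ∀ x ∈ Icc a b, |(φ1 x)⁻¹| ≤ 1 / l := by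
      intro x hx
      rw [abs_inv, one_div]
      exact inv_anti₀ hl (hlow x hx)
    rw [h5] at h4
    refine h4.trans ?_
    calc |-(φ1 b)⁻¹ - -(φ1 a)⁻¹| ≤ |-(φ1 b)⁻¹| + |-(φ1 a)⁻¹| := abs_sub _ _
      _ ≤ 1 / l + 1 / l := by
          rw [abs_neg, abs_neg]
          exact add_le_add (h6 b hb) (h6 a ha)
      _ = 2 / l := by ring
  rw [heq, hibp]
  calc ‖u b * v b - u a * v a - ∫ x in a..b, u' x * v x‖
      ≤ ‖u b * v b‖ + ‖u a * v a‖ + ‖∫ x in a..b, u' x * v x‖ := by
        refine (norm_sub_le _ _).trans (add_le_add (norm_sub_le _ _) le_rfl)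
    _ ≤ 1 / l + 1 / l + 2 / l := by
        refine add_le_add (add_le_add ?_ ?_) hint
        · rw [norm_mul, hvn, mul_one]; exact hun b hb
        · rw [norm_mul, hvn, mul_one]; exact hun a ha
    _ = 4 / l := by ring

/-- Second derivative test. -/
theorem vdc2 {a b m : ℝ} (hab : a ≤ b) (hm : 0 < m) {φ φ1 φ2 : ℝ → ℝ}
    (h1 : ∀ x ∈ Icc a b, HasDerivAt φ (φ1 x) x) (h2 : ∀ x ∈ Icc a b, HasDerivAt φ1 (φ2 x) x)
    (hc : ContinuousOn φ2 (Icc a b)) (hpos : ∀ x ∈ Icc a b, m ≤ φ2 x) :
    ‖∫ x in a..b, cexp (I * (φ x : ℂ))‖ ≤ 10 / √m := by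
  have hφ1c : ContinuousOn φ1 (Icc a b) := fun x hx => (h2 x hx).continuousAt.continuousWithinAt
  have hφc : ContinuousOn φ (Icc a b) := fun x hx => (h1 x hx).continuousAt.continuousWithinAt
  have hmono : MonotoneOn (fun x => φ1 x - m * x) (Icc a b) := by
    have hd : ∀ x ∈ Icc a b, HasDerivAt (fun x => φ1 x - m * x) (φ2 x - m) x := by
      intro x hx
      have := (h2 x hx).fun_sub ((hasDerivAt_id x).const_mul m)
      simpa using this
    refine monotoneOn_of_deriv_nonneg (convex_Icc a b)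
      (fun x hx => (hd x hx).continuousAt.continuousWithinAt) ?_ ?_
    · intro x hx
      rw [interior_Icc] at hx
      exact (hd x (Ioo_subset_Icc_self hx)).differentiableAt.differentiableWithinAt
    · intro x hx
      rw [interior_Icc] at hx
      rw [(hd x (Ioo_subset_Icc_self hx)).deriv]
      linarith [hpos x (Ioo_subset_Icc_self hx)]
  have ha : a ∈ Icc a b := ⟨le_rfl, hab⟩
  have hb : b ∈ Icc a b := ⟨hab, le_rfl⟩
  -- the centre
  obtain ⟨c, hc0, hcr, hcl⟩ : ∃ c ∈ Icc a b, (∀ x ∈ Icc a b, c < x → m * (x - c) ≤ φ1 x) ∧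
      (∀ x ∈ Icc a b, x < c → φ1 x ≤ -(m * (c - x))) := by
    rcases le_or_gt 0 (φ1 a) with h | h
    · refine ⟨a, ha, fun x hx hx' => ?_, fun x hx hx' => absurd hx.1 (not_le.2 hx')⟩
      have := hmono ha hx hx'.le
      simp only at this
      nlinarith
    · rcases le_or_gt (φ1 b) 0 with h' | h'
      · refine ⟨b, hb, fun x hx hx' => absurd hx.2 (not_le.2 hx'), fun x hx hx' => ?_⟩
        have := hmono hx hb hx'.le
        simp only at this
        nlinarith
      · obtain ⟨c, hc1, hc2⟩ := intermediate_value_Icc hab hφ1c ⟨h.le, h'.le⟩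
        refine ⟨c, hc1, fun x hx hx' => ?_, fun x hx hx' => ?_⟩
        · have := hmono hc1 hx hx'.le
          simp only [hc2] at this
          nlinarith
        · have := hmono hx hc1 hx'.le
          simp only [hc2] at this
          nlinarith
  have hsm : 0 < √m := Real.sqrt_pos.2 hm
  set δ : ℝ := 1 / √m with hδ
  have hδ0 : 0 < δ := by positivity
  have hmδ : m * δ = √m := by
    rw [hδ, mul_one_div, div_eq_iff hsm.ne', Real.mul_self_sqrt hm.le]
  set p : ℝ := max a (c - δ) with hp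
  set q : ℝ := min b (c + δ) with hq
  have hap : a ≤ p := le_max_left _ _
  have hpc : p ≤ c := max_le hc0.1 (by linarith)
  have hcq : c ≤ q := le_min hc0.2 (by linarith)
  have hqb : q ≤ b := min_le_left _ _
  have hEc : ContinuousOn (fun x => cexp (I * (φ x : ℂ))) (Icc a b) :=
    (continuousOn_const.mul (continuous_ofReal.comp_continuousOn hφc)).cexp
  have hint : ∀ x y : ℝ, a ≤ x → x ≤ y → y ≤ b →
      IntervalIntegrable (fun x => cexp (I * (φ x : ℂ))) volume x y := by
    intro x y hx hxy hy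
    refine ContinuousOn.intervalIntegrable ?_
    rw [uIcc_of_le hxy]
    exact hEc.mono (Icc_subset_Icc hx hy)
  have hsplit : ∫ x in a..b, cexp (I * (φ x : ℂ)) = (∫ x in a..p, cexp (I * (φ x : ℂ)))
      + (∫ x in p..q, cexp (I * (φ x : ℂ))) + ∫ x in q..b, cexp (I * (φ x : ℂ)) := by
    rw [intervalIntegral.integral_add_adjacent_intervals
      (hint a p le_rfl hap (hpc.trans hc0.2)) (hint p q hap (hpc.trans hcq) hqb),
      intervalIntegral.integral_add_adjacent_intervals
      (hint a q le_rfl (hap.trans (hpc.trans hcq)) hqb) (hint q b (hc0.1.trans hcq) hqb le_rfl)]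
  have hleft : ‖∫ x in a..p, cexp (I * (φ x : ℂ))‖ ≤ 4 / √m := by
    rcases le_total (c - δ) a with h | h
    · have : p = a := max_eq_left h
      rw [this, intervalIntegral.integral_same, norm_zero]
      positivity
    · have hpe : p = c - δ := max_eq_right h
      have hsub : Icc a p ⊆ Icc a b := Icc_subset_Icc le_rfl (hpc.trans hc0.2)
      refine vdc1 hap hsm (fun x hx => h1 x (hsub hx)) (fun x hx => h2 x (hsub hx))
        (hc.mono hsub) (fun x hx => hm.le.trans (hpos x (hsub hx))) ?_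
      intro x hx
      have h3 : x ≤ c - δ := hpe ▸ hx.2
      have h4 := hcl x (hsub hx) (by linarith)
      have h5 : m * δ ≤ m * (c - x) := mul_le_mul_of_nonneg_left (by linarith) hm.le
      rw [abs_of_nonpos (by nlinarith)]
      linarith
  have hright : ‖∫ x in q..b, cexp (I * (φ x : ℂ))‖ ≤ 4 / √m := by
    rcases le_total b (c + δ) with h | h
    · have : q = b := min_eq_left h
      rw [this, intervalIntegral.integral_same, norm_zero]
      positivity
    · have hqe : q = c + δ := min_eq_right h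
      have hsub : Icc q b ⊆ Icc a b := Icc_subset_Icc (hc0.1.trans hcq) le_rfl
      refine vdc1 hqb hsm (fun x hx => h1 x (hsub hx)) (fun x hx => h2 x (hsub hx))
        (hc.mono hsub) (fun x hx => hm.le.trans (hpos x (hsub hx))) ?_
      intro x hx
      have h3 : c + δ ≤ x := hqe ▸ hx.1
      have h4 := hcr x (hsub hx) (by linarith)
      have h5 : m * δ ≤ m * (x - c) := mul_le_mul_of_nonneg_left (by linarith) hm.le
      rw [abs_of_nonneg (by nlinarith)]
      linarith
  have hmid : ‖∫ x in p..q, cexp (I * (φ x : ℂ))‖ ≤ 2 / √m := by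
    have h3 : ‖∫ x in p..q, cexp (I * (φ x : ℂ))‖ ≤ 1 * |q - p| := by
      refine intervalIntegral.norm_integral_le_of_norm_le_const fun x _ => ?_
      rw [mul_comm, Complex.norm_exp_ofReal_mul_I]
    refine h3.trans ?_
    rw [one_mul, abs_of_nonneg (by linarith)]
    have h4 : q ≤ c + δ := min_le_right _ _
    have h5 : c - δ ≤ p := le_max_right _ _
    have h6 : 2 / √m = 2 * δ := by rw [hδ]; ring
    rw [h6]
    linarith
  rw [hsplit]
  calc _ ≤ ‖∫ x in a..p, cexp (I * (φ x : ℂ))‖ + ‖∫ x in p..q, cexp (I * (φ x : ℂ))‖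
        + ‖∫ x in q..b, cexp (I * (φ x : ℂ))‖ := norm_add₃_le
    _ ≤ 4 / √m + 2 / √m + 4 / √m := add_le_add (add_le_add hleft hmid) hright
    _ = 10 / √m := by ring

/-- The angle function. -/
noncomputable def F (x : ℝ) : ℝ := 2 * Real.arctan x

/-- The basic oscillatory integral. -/
noncomputable def J0 (t m : ℝ) : ℂ := ∫ x in (1 : ℝ)..2, cexp (I * ((t * x + m * F x : ℝ) : ℂ))

theorem J0_neg (t m : ℝ) : ‖J0 (-t) (-m)‖ = ‖J0 t m‖ := by
  have : J0 (-t) (-m) = starRingEnd ℂ (J0 t m) := by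
    unfold J0
    rw [intervalIntegral.integral_of_le (by norm_num), intervalIntegral.integral_of_le (by norm_num),
      ← integral_conj]
    congr 1
    funext x
    rw [← Complex.exp_conj, map_mul, Complex.conj_I, Complex.conj_ofReal]
    congr 1
    push_cast
    ring
  rw [this]
  exact RCLike.norm_conj _

theorem J0_bound (t m : ℝ) (hm : 1 ≤ |m|) : ‖J0 t m‖ ≤ 30 / √(max |m| |t|) := by
  -- reduce to `m < 0`
  wlog hneg : m < 0 generalizing t m with H
  · have h := H (-t) (-m) (by rwa [abs_neg]) (by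
      rcases lt_trichotomy m 0 with h | h | h
      · exact absurd h hneg
      · rw [h, abs_zero] at hm; linarith
      · linarith)
    rw [J0_neg, abs_neg, abs_neg] at h
    exact h
  set φ : ℝ → ℝ := fun x => t * x + m * F x with hφ
  set φ1 : ℝ → ℝ := fun x => t + m * (2 / (1 + x ^ 2)) with hφ1
  set φ2 : ℝ → ℝ := fun x => -(4 * m * x) / (1 + x ^ 2) ^ 2 with hφ2
  have hpos : ∀ x : ℝ, 0 < 1 + x ^ 2 := fun x => by positivity
  have hd1 : ∀ x, HasDerivAt φ (φ1 x) x := by
    intro x
    have h1 : HasDerivAt F (2 * (1 / (1 + x ^ 2))) x := (Real.hasDerivAt_arctan x).const_mul 2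
    have h2 := ((hasDerivAt_id x).const_mul t).add (h1.const_mul m)
    refine h2.congr_deriv ?_
    rw [hφ1]
    ring
  have hd2 : ∀ x, HasDerivAt φ1 (φ2 x) x := by
    intro x
    have h1 : HasDerivAt (fun x : ℝ => 1 + x ^ 2) (2 * x) x := by
      have := (hasDerivAt_pow 2 x).const_add 1
      simpa using this
    have h2 := ((h1.inv (hpos x).ne').const_mul (2 * m)).const_add t
    refine (h2.congr_deriv ?_).congr_of_eventuallyEq (Eventually.of_forall fun y => ?_)
    · rw [hφ2]
      simp only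
      ring
    · rw [hφ1]
      simp only [Pi.inv_apply]
      ring
  have hc2 : Continuous φ2 := by
    rw [hφ2]
    refine Continuous.div (by fun_prop) (by fun_prop) fun x => pow_ne_zero 2 (hpos x).ne'
  have habs : |m| = -m := abs_of_neg hneg
  have hJ : J0 t m = ∫ x in (1 : ℝ)..2, cexp (I * (φ x : ℂ)) := rfl
  have h2low : ∀ x ∈ Icc (1 : ℝ) 2, |m| / 4 ≤ φ2 x := by
    intro x hx
    rw [hφ2, habs]
    simp only
    rw [le_div_iff₀ (by positivity)]
    obtain ⟨hx1, hx2⟩ := hx
    have h3 : (1 + x ^ 2) ^ 2 ≤ 16 * x := by nlinarith [mul_nonneg (sub_nonneg.2 hx1) (sub_nonneg.2 hx2), sq_nonneg (x - 1), sq_nonneg (x-2), mul_nonneg (mul_nonneg (sub_nonneg.2 hx1) (sub_nonneg.2 hx2)) (by linarith : (0:ℝ) ≤ x), mul_nonneg (mul_nonneg (sub_nonneg.2 hx1) (sub_nonneg.2 hx2)) (sq_nonneg x)]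
    nlinarith
  have hmax0 : 0 < max |m| |t| := lt_of_lt_of_le (by linarith) (le_max_left _ _)
  rcases le_or_gt (2 * |m|) |t| with h | h
  · -- first derivative test
    have hmax : max |m| |t| = |t| := max_eq_right (by linarith)
    have ht : 2 ≤ |t| := by linarith
    have h4 : ‖J0 t m‖ ≤ 4 / (|t| / 2) := by
      rw [hJ]
      refine vdc1 (by norm_num) (by linarith) (fun x _ => hd1 x) (fun x _ => hd2 x)
        hc2.continuousOn (fun x hx => le_trans (by positivity) (h2low x hx)) ?_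
      intro x hx
      rw [hφ1]
      simp only
      have h5 : |m * (2 / (1 + x ^ 2))| ≤ |m| := by
        rw [abs_mul, abs_of_pos (by positivity : (0 : ℝ) < 2 / (1 + x ^ 2))]
        refine mul_le_of_le_one_right (abs_nonneg _) ?_
        rw [div_le_one (hpos x)]
        nlinarith [hx.1]
      have h6 : |t| - |m * (2 / (1 + x ^ 2))| ≤ |t + m * (2 / (1 + x ^ 2))| := by
        have := abs_sub_abs_le_abs_sub t (-(m * (2 / (1 + x ^ 2))))
        rw [abs_neg, sub_neg_eq_add] at this
        exact this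
      linarith
    rw [hmax]
    refine h4.trans ?_
    have hs : √|t| ≤ |t| := by
      rw [Real.sqrt_le_left (by linarith)]
      nlinarith
    have hs0 : 0 < √|t| := Real.sqrt_pos.2 (by linarith)
    have h7 : 4 / (|t| / 2) = 8 / |t| := by field_simp; norm_num
    rw [h7, div_le_div_iff₀ (by linarith) hs0]
    nlinarith
  · have h4 : ‖J0 t m‖ ≤ 10 / √(|m| / 4) := by
      rw [hJ]
      exact vdc2 (by norm_num) (by linarith) (fun x _ => hd1 x) (fun x _ => hd2 x)
        hc2.continuousOn h2low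
    refine h4.trans ?_
    have h5 : √(max |m| |t|) ≤ √(9 * (|m| / 4)) := by
      apply Real.sqrt_le_sqrt
      exact max_le (by linarith) (by linarith)
    have h6 : √(9 * (|m| / 4)) = 3 * √(|m| / 4) := by
      rw [Real.sqrt_mul (by norm_num), show (9 : ℝ) = 3 ^ 2 by norm_num,
        Real.sqrt_sq (by norm_num)]
    have h7 : 0 < √(|m| / 4) := Real.sqrt_pos.2 (by linarith)
    have h8 : 0 < √(max |m| |t|) := Real.sqrt_pos.2 hmax0
    rw [h6] at h5
    rw [div_le_div_iff₀ h7 h8]
    linarith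

theorem J0_zero_bound (t : ℝ) (ht : t ≠ 0) : ‖J0 t 0‖ ≤ 4 / |t| := by
  have hJ : J0 t 0 = ∫ x in (1 : ℝ)..2, cexp (I * ((fun x : ℝ => t * x) x : ℂ)) := by
    unfold J0
    simp
  rw [hJ]
  have := vdc1 (a := 1) (b := 2) (by norm_num) (abs_pos.2 ht) (φ := fun x => t * x)
    (φ1 := fun _ => t) (φ2 := fun _ => 0)
    (fun x _ => by simpa using (hasDerivAt_id x).const_mul t)
    (fun x _ => hasDerivAt_const x t) continuousOn_const (fun _ _ => le_rfl) (fun _ _ => le_rfl)
  simpa using this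

end Pool.Agent.Q189.RP
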